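import Pool.Agent.Q38.GE.Stm

/-!
# Project GE of helper38, job VSP (helper91)
-/

set_option autoImplicit false

namespace Pool.Agent.Q91.GE

open Q38.GE Matrix

/-- the space of the `k + Σ f'ᵢ bᵢ`, `bᵢ ∈ V₀` -/
noncomputable def US {K : Type} [Field K] {n : ℕ} (f' : Fin n → A K n) (V₀ : Submodule K (A K n)) :
    Submodule K (A K n) where
  carrier := {a | ∃ (k : K) (b : Fin n → A K n), (∀ i, b i ∈ V₀) ∧
    a = algebraMap K _ k + ∑ i, f' i * b i}
  add_mem' := by
    rintro a a' ⟨k, b, hb, rfl⟩ ⟨k', b', hb', rfl⟩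
    refine ⟨k + k', fun i => b i + b' i, fun i => V₀.add_mem (hb i) (hb' i), ?_⟩
    simp only [map_add, mul_add, Finset.sum_add_distrib]
    abel
  zero_mem' := ⟨0, fun _ => 0, fun _ => V₀.zero_mem, by simp⟩
  smul_mem' := by
    rintro c a ⟨k, b, hb, rfl⟩
    refine ⟨c * k, fun i => c • b i, fun i => V₀.smul_mem c (hb i), ?_⟩
    simp only [map_mul, smul_add, Finset.smul_sum, mul_smul_comm]
    rw [Algebra.smul_def]

theorem US_const {K : Type} [Field K] {n : ℕ} (f' : Fin n → A K n) (V₀ : Submodule K (A K n)) (k : K) :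
    algebraMap K _ k ∈ US f' V₀ :=
  ⟨k, fun _ => 0, fun _ => V₀.zero_mem, by simp⟩

theorem US_sum {K : Type} [Field K] {n : ℕ} (f' : Fin n → A K n) (V₀ : Submodule K (A K n))
    (b : Fin n → A K n) (hb : ∀ i, b i ∈ V₀) : ∑ i, f' i * b i ∈ US f' V₀ :=
  ⟨0, b, hb, by simp⟩

/-- identity (E) -/
theorem idE (h : S_TR) {K : Type} [Field K] {n : ℕ} (φ : A K n →ₐ[K] A K n)
    (G : Wd n → Matrix (Fin n) (Fin n) (A K n))
    (hI : ∀ w, ∑ k ∈ Finset.range (w.length + 1), Hm φ (w.drop k) * G (w.take k) =
      if w = [] then 1 else 0) (w : Wd n) (j l : Fin n) :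
    ∑ k ∈ Finset.range (w.length + 1), ∑ i, trw (w.drop k ++ [j]) (φ (x K i)) * G (w.take k) i l =
      if w = [] ∧ j = l then 1 else 0 := by
  obtain ⟨h1, -, -, -, -, h6⟩ := h K n
  have e := congrFun (congrFun (hI w) j) l
  rw [Matrix.sum_apply] at e
  have e2 : ∑ k ∈ Finset.range (w.length + 1), ∑ i, trw (w.drop k ++ [j]) (φ (x K i)) * G (w.take k) i l
      = ∑ k ∈ Finset.range (w.length + 1), (Hm φ (w.drop k) * G (w.take k)) j l := by
    refine Finset.sum_congr rfl fun k _ => ?_
    rw [Matrix.mul_apply]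
    refine Finset.sum_congr rfl fun i _ => ?_
    rw [h6]
    rfl
  rw [e2, e]
  by_cases hw : w = []
  · simp [hw, Matrix.one_apply]
  · simp [hw]

/-- the sum of the rows -/
theorem idX (h : S_TR) {K : Type} [Field K] {n : ℕ} (φ : A K n →ₐ[K] A K n)
    (G : Wd n → Matrix (Fin n) (Fin n) (A K n))
    (hI : ∀ w, ∑ k ∈ Finset.range (w.length + 1), Hm φ (w.drop k) * G (w.take k) =
      if w = [] then 1 else 0) (w : Wd n) (l : Fin n) :
    ∑ k ∈ Finset.range (w.length + 1), ∑ i, (trw (w.drop k) (φ (x K i)) -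
      algebraMap K _ (ep (trw (w.drop k) (φ (x K i))))) * G (w.take k) i l =
      if w = [] then x K l else 0 := by
  obtain ⟨h1, -, -, -, -, h6⟩ := h K n
  have e : ∀ j, ∑ k ∈ Finset.range (w.length + 1), (Hm φ (w.drop k) * G (w.take k)) j l =
      if w = [] then (1 : Matrix (Fin n) (Fin n) (A K n)) j l else 0 := by
    intro j
    have e := congrFun (congrFun (hI w) j) l
    rw [Matrix.sum_apply] at e
    rw [e]
    by_cases hw : w = [] <;> simp [hw]
  have e3 : ∑ k ∈ Finset.range (w.length + 1), ∑ i, (trw (w.drop k) (φ (x K i)) -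
      algebraMap K _ (ep (trw (w.drop k) (φ (x K i))))) * G (w.take k) i l =
      ∑ j, x K j * ∑ k ∈ Finset.range (w.length + 1), (Hm φ (w.drop k) * G (w.take k)) j l := by
    have e5 : ∑ j, x K j * ∑ k ∈ Finset.range (w.length + 1), (Hm φ (w.drop k) * G (w.take k)) j l =
        ∑ k ∈ Finset.range (w.length + 1), ∑ i, ∑ j,
          x K j * (Hm φ (w.drop k) j i * G (w.take k) i l) := by
      simp only [Finset.mul_sum, Matrix.mul_apply]
      rw [Finset.sum_comm]
      exact Finset.sum_congr rfl fun k _ => Finset.sum_comm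
    rw [e5]
    refine Finset.sum_congr rfl fun k _ => Finset.sum_congr rfl fun i _ => ?_
    have := h1 (trw (w.drop k) (φ (x K i)))
    have e4 : trw (w.drop k) (φ (x K i)) - algebraMap K _ (ep (trw (w.drop k) (φ (x K i)))) =
        ∑ j, x K j * tr j (trw (w.drop k) (φ (x K i))) := by
      rw [sub_eq_iff_eq_add']
      exact this
    rw [e4, Finset.sum_mul]
    refine Finset.sum_congr rfl fun j _ => ?_
    rw [mul_assoc]
    rfl
  rw [e3]
  simp only [e]
  by_cases hw : w = []
  · simp [hw, Matrix.one_apply]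
  · simp [hw]

/-- identity (F) for the word `w ++ [m]` -/
theorem idF (h : S_TR) {K : Type} [Field K] {n : ℕ} (φ : A K n →ₐ[K] A K n)
    (G : Wd n → Matrix (Fin n) (Fin n) (A K n))
    (hI : ∀ w, ∑ k ∈ Finset.range (w.length + 1), Hm φ (w.drop k) * G (w.take k) =
      if w = [] then 1 else 0) (w : Wd n) (m l : Fin n) :
    ∑ i, ep (tr m (φ (x K i))) • G w i l =
      ∑ i, (φ (x K i) - algebraMap K _ (ep (φ (x K i)))) * G (w ++ [m]) i l +
      algebraMap K _ (if w = [] ∧ m = l then 1 else 0) -
      ∑ k ∈ Finset.range w.length, ∑ i, ep (trw (w.drop k ++ [m]) (φ (x K i))) • G (w.take k) i l := by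
  have hE := idE h φ G hI w m l
  have hX := idX h φ G hI (w ++ [m]) l
  have hlen : (w ++ [m]).length = w.length + 1 := by simp
  rw [hlen, Finset.sum_range_succ] at hX
  have hne : w ++ [m] ≠ [] := by simp
  rw [if_neg hne] at hX
  have ht : (w ++ [m]).take (w.length + 1) = w ++ [m] := by
    rw [← hlen]; exact List.take_length
  have hd : (w ++ [m]).drop (w.length + 1) = [] := by
    rw [← hlen]; exact List.drop_length
  rw [ht, hd] at hX
  have hX2 : ∑ k ∈ Finset.range (w.length + 1), ∑ i, (trw ((w ++ [m]).drop k) (φ (x K i)) -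
      algebraMap K _ (ep (trw ((w ++ [m]).drop k) (φ (x K i))))) * G ((w ++ [m]).take k) i l =
      ∑ k ∈ Finset.range (w.length + 1), ∑ i, trw (w.drop k ++ [m]) (φ (x K i)) * G (w.take k) i l -
      ∑ k ∈ Finset.range (w.length + 1), ∑ i, ep (trw (w.drop k ++ [m]) (φ (x K i))) • G (w.take k) i l := by
    rw [← Finset.sum_sub_distrib]
    refine Finset.sum_congr rfl fun k hk => ?_
    rw [← Finset.sum_sub_distrib]
    refine Finset.sum_congr rfl fun i _ => ?_
    have hk' : k ≤ w.length := by
      have := Finset.mem_range.1 hk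
      omega
    rw [List.drop_append_of_le_length hk', List.take_append_of_le_length hk', sub_mul,
      Algebra.smul_def]
  rw [hX2, hE, Finset.sum_range_succ] at hX
  have hdw : w.drop w.length = [] := List.drop_length
  have htw : w.take w.length = w := List.take_length
  rw [hdw, htw] at hX
  have hm : ∀ i, trw ([] ++ [m]) (φ (x K i)) = tr m (φ (x K i)) := fun i => rfl
  simp only [hm] at hX
  have hn : ∀ i, trw ([] : Wd n) (φ (x K i)) = φ (x K i) := fun i => rfl
  simp only [hn] at hX
  have hc : (algebraMap K (A K n)) (if w = [] ∧ m = l then 1 else 0) =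
      if w = [] ∧ m = l then 1 else 0 := by
    split_ifs <;> simp
  rw [hc]
  have key : ∀ a b c d : A K n, d - (c + a) + b = 0 → a = b + d - c := by
    intro a b c d h0
    have h3 : b + d - c - a = 0 := by
      rw [← h0]
      abel
    exact (sub_eq_zero.mp h3).symm
  exact key _ _ _ _ hX

theorem vsp (h : S_TR) : S_VSP := by
  intro K _ n φ hφ
  obtain ⟨C, G, hC, hI⟩ := hφ
  have hF := idF h φ G hI
  have hX0 := idX h φ G hI []
  set f' : Fin n → A K n := fun i => φ (x K i) - algebraMap K _ (ep (φ (x K i))) with hf'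
  set V₀ : Submodule K (A K n) := Submodule.span K {a | ∃ w i l, a = G w i l} with hV₀
  have hG : ∀ w i l, G w i l ∈ V₀ := fun w i l => Submodule.subset_span ⟨w, i, l, rfl⟩
  -- invertibility
  have hinv : ∃ M : Matrix (Fin n) (Fin n) K,
      M * (Matrix.of fun m i => ep (tr m (φ (x K i)))) = 1 := by
    have e := hI []
    simp only [List.length_nil, zero_add, Finset.sum_range_one, List.drop_nil, List.take_nil,
      if_true] at e
    refine ⟨(G []).map ep, ?_⟩
    rw [mul_eq_one_comm]
    have e2 := congrArg (fun M : Matrix (Fin n) (Fin n) (A K n) => M.map (ep : A K n →ₐ[K] K)) e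
    simp only [Matrix.map_mul] at e2
    rw [Matrix.map_one _ (map_zero _) (map_one _)] at e2
    rw [← e2]
    congr 1
  obtain ⟨M, hM⟩ := hinv
  -- `V₀ ⊆ U`
  have hU : ∀ N : ℕ, ∀ w : Wd n, w.length = N → ∀ i l, G w i l ∈ US f' V₀ := by
    intro N
    induction N using Nat.strong_induction_on with
    | _ N ih =>
      intro w hw i l
      have h1 : ∀ m, ∑ i', ep (tr m (φ (x K i'))) • G w i' l ∈ US f' V₀ := by
        intro m
        rw [hF w m l]
        refine Submodule.sub_mem _ (Submodule.add_mem _ (US_sum f' V₀ _ fun i => hG _ _ _)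
          (US_const f' V₀ _)) ?_
        refine Submodule.sum_mem _ fun k hk => Submodule.sum_mem _ fun i _ =>
          Submodule.smul_mem _ _ ?_
        have hk' := Finset.mem_range.1 hk
        exact ih k (by omega) _ (by rw [List.length_take]; omega) i l
      have h2 : G w i l = ∑ m, M i m • ∑ i', ep (tr m (φ (x K i'))) • G w i' l := by
        have e : ∀ i', ∑ m, M i m * ep (tr m (φ (x K i'))) = if i = i' then 1 else 0 := by
          intro i'
          have := congrFun (congrFun hM i) i'
          rw [Matrix.mul_apply, Matrix.one_apply] at this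
          exact this
        simp only [Finset.smul_sum, smul_smul]
        rw [Finset.sum_comm]
        simp only [← Finset.sum_smul, e]
        simp
      rw [h2]
      exact Submodule.sum_mem _ fun m _ => Submodule.smul_mem _ _ (h1 m)
  have hxU : ∀ l, x K l ∈ US f' V₀ := by
    intro l
    have := hX0 l
    simp only [List.length_nil, zero_add, Finset.sum_range_one, List.drop_nil, List.take_nil,
      if_true] at this
    rw [← this]
    exact US_sum f' V₀ _ fun i => hG _ _ _
  -- finiteness
  have hfin : ({a | ∃ w i l, a = G w i l} ∪ Set.range fun l => x K l : Set (A K n)).Finite := by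
    refine Set.Finite.union ?_ (Set.finite_range _)
    have hw : {w : Wd n | w.length < C}.Finite := List.finite_length_lt _ _
    have hs : {a : A K n | ∃ w i l, a = G w i l} ⊆
        insert 0 (⋃ w ∈ {w : Wd n | w.length < C}, Set.range fun p : Fin n × Fin n => G w p.1 p.2) := by
      rintro a ⟨w, i, l, rfl⟩
      by_cases hwc : w.length < C
      · right
        simp only [Set.mem_iUnion]
        exact ⟨w, hwc, (i, l), rfl⟩
      · left
        rw [hC w (by omega)]
        rfl
    refine Set.Finite.subset ?_ hs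
    exact Set.Finite.insert _ (Set.Finite.biUnion hw fun w _ => Set.finite_range _)
  refine ⟨Submodule.span K ({a | ∃ w i l, a = G w i l} ∪ Set.range fun l => x K l), ?_, ?_, ?_⟩
  · exact FiniteDimensional.span_of_finite K hfin
  · intro i
    exact Submodule.subset_span (Or.inr ⟨i, rfl⟩)
  · intro a ha
    have hVU : Submodule.span K ({a | ∃ w i l, a = G w i l} ∪ Set.range fun l => x K l) ≤
        US f' V₀ := by
      rw [Submodule.span_le]
      rintro a (⟨w, i, l, rfl⟩ | ⟨l, rfl⟩)
      · exact hU _ w rfl i l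
      · exact hxU l
    obtain ⟨k, b, hb, hab⟩ := hVU ha
    have hb' : ∀ i, b i ∈ Submodule.span K ({a | ∃ w i l, a = G w i l} ∪ Set.range fun l => x K l) :=
      fun i => Submodule.span_mono Set.subset_union_left (hb i)
    refine ⟨b, hb', ?_⟩
    have hk : ep a = k := by
      rw [hab]
      simp only [map_add, map_sum, map_mul, hf', map_sub]
      have e1 : ∀ c : K, (ep (algebraMap K (A K n) c) : K) = c := fun c => by
        rw [AlgHom.commutes]; rfl
      simp [e1]
    rw [hk]
    exact hab

end Pool.Agent.Q91.GE
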